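import Mathlib

set_option autoImplicit false

namespace Pool.Agent.Results.MP_fdbc88_co.DiameterTwentyFour

/-- the colour-neighbourhood of `u` -/
def colNbhd {V κ : Type} (G : SimpleGraph V) (c : V → κ) (u : V) : Set κ :=
  {i | ∃ w, G.Adj u w ∧ c w = i}

/-- `c` is a neighbor-locating proper colouring of `G` -/
def IsNL {V κ : Type} (G : SimpleGraph V) (c : V → κ) : Prop :=
  (∀ u v, G.Adj u v → c u ≠ c v) ∧
    ∀ u v, u ≠ v → c u = c v → colNbhd G c u ≠ colNbhd G c v

/-- the neighbor-locating chromatic number: the least `k` such that `G` has a neighbor-locating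
proper colouring with (at most) `k` colours -/
noncomputable def chiNL {V : Type} (G : SimpleGraph V) : ℕ :=
  sInf {k | ∃ c : V → Fin k, IsNL G c}

/-- adjacency of the graph on 26 vertices: the path `0, ..., 24` and the vertex `25` joined to
`1, 2, 3` -/
def adjB (a b : ℕ) : Bool :=
  (a + 1 == b && decide (b < 25)) || (b + 1 == a && decide (a < 25)) ||
    (a == 25 && (b == 1 || b == 2 || b == 3)) || (b == 25 && (a == 1 || a == 2 || a == 3))

/-- the graph -/
def G : SimpleGraph (Fin 26) where
  Adj a b := adjB a b = true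
  symm := ⟨by decide +kernel⟩
  loopless := ⟨by decide +kernel⟩

instance : DecidableRel G.Adj := fun a b => by unfold G; infer_instance

/-- the colouring -/
def col (v : Fin 26) : Fin 4 :=
  ![3, 2, 1, 3, 2, 3, 0, 2, 3, 1, 2, 0, 2, 0, 1, 0, 3, 0, 3, 1, 3, 1, 0, 1, 2, 0] v

lemma col_proper : ∀ u v : Fin 26, G.Adj u v → col u ≠ col v := by
  decide +kernel

lemma col_nl : ∀ u v : Fin 26, u ≠ v → col u = col v →
    ∃ i : Fin 4, ¬ ((∃ w, G.Adj u w ∧ col w = i) ↔ (∃ w, G.Adj v w ∧ col w = i)) := by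
  decide +kernel

lemma col_isNL : IsNL G col := by
  refine ⟨col_proper, fun u v huv hc h => ?_⟩
  obtain ⟨i, hi⟩ := col_nl u v huv hc
  apply hi
  have : (i ∈ colNbhd G col u) = (i ∈ colNbhd G col v) := by rw [h]
  exact iff_of_eq this

lemma path_edist (i k : ℕ) (h : i + k < 25) :
    G.edist ⟨i, by omega⟩ ⟨i + k, by omega⟩ ≤ (k : ℕ∞) := by
  induction k with
  | zero => simp
  | succ k ih =>
    have h1 := ih (by omega)
    have hadj : G.Adj ⟨i + k, by omega⟩ ⟨i + (k + 1), by omega⟩ := by
      show adjB (i + k) (i + (k + 1)) = true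
      unfold adjB
      have h2 : (i + k + 1 == i + (k + 1) && decide (i + (k + 1) < 25)) = true := by
        simp only [Bool.and_eq_true, beq_iff_eq, decide_eq_true_eq]
        omega
      rw [h2]; simp
    have h3 := SimpleGraph.edist_eq_one_iff_adj.2 hadj
    calc _ ≤ _ := SimpleGraph.edist_triangle (v := ⟨i + k, by omega⟩)
      _ ≤ (k : ℕ∞) + 1 := by rw [h3]; gcongr
      _ = _ := by push_cast; rfl

lemma edist_path (i j : Fin 26) (hi : (i : ℕ) < 25) (hj : (j : ℕ) < 25) :
    G.edist i j ≤ ((max (i : ℕ) j - min (i : ℕ) j : ℕ) : ℕ∞) := by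
  rcases le_total (i : ℕ) j with h | h
  · have := path_edist i (j - i) (by omega)
    have e : (⟨(i : ℕ) + (j - i), by omega⟩ : Fin 26) = j := Fin.ext (by simp; omega)
    rw [e] at this
    rwa [max_eq_right h, min_eq_left h]
  · have := path_edist j (i - j) (by omega)
    have e : (⟨(j : ℕ) + (i - j), by omega⟩ : Fin 26) = i := Fin.ext (by simp; omega)
    rw [e, SimpleGraph.edist_comm] at this
    rwa [max_eq_left h, min_eq_right h]

lemma edist_25 (j : Fin 26) (hj : (j : ℕ) < 25) : G.edist 25 j ≤ (24 : ℕ) := by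
  have h1 : G.edist 25 2 = 1 := SimpleGraph.edist_eq_one_iff_adj.2 (by decide +kernel)
  have h2 := edist_path 2 j (by decide) hj
  calc _ ≤ G.edist 25 2 + G.edist 2 j := SimpleGraph.edist_triangle
    _ ≤ 1 + ((max ((2 : Fin 26) : ℕ) j - min ((2 : Fin 26) : ℕ) j : ℕ) : ℕ∞) := by
      rw [h1]; gcongr
    _ ≤ (24 : ℕ) := by
      have : 1 + (max ((2 : Fin 26) : ℕ) j - min ((2 : Fin 26) : ℕ) j) ≤ 24 := by
        have h3 : ((2 : Fin 26) : ℕ) = 2 := rfl
        rw [h3]; omega
      exact_mod_cast this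

lemma ediam_le : G.ediam ≤ (24 : ℕ) := by
  apply SimpleGraph.ediam_le_of_edist_le
  intro u v
  by_cases hu : (u : ℕ) < 25 <;> by_cases hv : (v : ℕ) < 25
  · refine (edist_path u v hu hv).trans ?_
    have : max (u : ℕ) v - min (u : ℕ) v ≤ 24 := by omega
    exact_mod_cast this
  · have : v = 25 := Fin.ext (by show (v : ℕ) = 25; omega)
    rw [this, SimpleGraph.edist_comm]
    exact edist_25 u hu
  · have : u = 25 := Fin.ext (by show (u : ℕ) = 25; omega)
    rw [this]
    exact edist_25 v hv
  · have h1 : v = 25 := Fin.ext (by show (v : ℕ) = 25; omega)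
    have h2 : u = 25 := Fin.ext (by show (u : ℕ) = 25; omega)
    rw [h1, h2]; simp

/-- position along the path -/
def pos (v : Fin 26) : ℕ := if (v : ℕ) = 25 then 2 else v

lemma pos_adj : ∀ u v : Fin 26, G.Adj u v → pos v ≤ pos u + 1 := by
  decide +kernel

lemma pos_walk {u v : Fin 26} (p : G.Walk u v) : pos v ≤ pos u + p.length := by
  induction p with
  | nil => simp
  | cons h p ih =>
    have := pos_adj _ _ h
    rw [SimpleGraph.Walk.length_cons]
    omega

lemma le_ediam : (24 : ℕ) ≤ G.ediam := by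
  refine le_trans ?_ (SimpleGraph.edist_le_ediam (u := 0) (v := 24))
  unfold SimpleGraph.edist
  apply le_iInf
  intro p
  have := pos_walk p
  have h0 : pos 0 = 0 := rfl
  have h1 : pos 24 = 24 := rfl
  rw [h0, h1] at this
  exact_mod_cast (by omega : 24 ≤ p.length)

lemma ediam_eq : G.ediam = (24 : ℕ) := le_antisymm ediam_le le_ediam

/-- the possible pairs (colour, colour-neighbourhood) on a path with four colours -/
def codes : Finset (Fin 4 × Finset (Fin 4)) :=
  Finset.univ.filter (fun p => p.1 ∉ p.2 ∧ p.2.card ≤ 2 ∧ 1 ≤ p.2.card)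

lemma codes_card : codes.card = 24 := by decide +kernel

/-- no path on 25 vertices has a neighbor-locating colouring with four colours -/
lemma path_bound (c : Fin 25 → Fin 4) : ¬ IsNL (SimpleGraph.pathGraph 25) c := by
  classical
  rintro ⟨h1, h2⟩
  let N : Fin 25 → Finset (Fin 4) := fun u =>
    (Finset.univ.filter (fun w => (SimpleGraph.pathGraph 25).Adj u w)).image c
  have hN : ∀ u, (N u : Set (Fin 4)) = colNbhd (SimpleGraph.pathGraph 25) c u := by
    intro u
    ext i
    simp [N, colNbhd]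
  have hmem : ∀ u, (c u, N u) ∈ codes := by
    intro u
    simp only [codes, Finset.mem_filter, Finset.mem_univ, true_and]
    refine ⟨?_, ?_, ?_⟩
    · simp only [N, Finset.mem_image, Finset.mem_filter, Finset.mem_univ, true_and, not_exists,
        not_and]
      intro w hw h
      exact h1 u w hw h.symm
    · refine Finset.card_image_le.trans ?_
      have key : ∀ u : Fin 25,
          (Finset.univ.filter (fun w : Fin 25 => (u : ℕ) + 1 = w ∨ (w : ℕ) + 1 = u)).card ≤ 2 := by
        decide +kernel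
      simpa only [SimpleGraph.pathGraph_adj] using key u
    · rw [Nat.one_le_iff_ne_zero, Finset.card_ne_zero]
      have key : ∀ u : Fin 25, ∃ w : Fin 25, (u : ℕ) + 1 = w ∨ (w : ℕ) + 1 = u := by
        decide +kernel
      obtain ⟨w, hw⟩ := key u
      exact ⟨c w, Finset.mem_image_of_mem _ (by simp [SimpleGraph.pathGraph_adj, hw])⟩
  have hinj : Function.Injective (fun u => (c u, N u)) := by
    intro u v h
    by_contra huv
    simp only [Prod.mk.injEq] at h
    apply h2 u v huv h.1
    rw [← hN, ← hN, h.2]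
  have h3 : (Finset.univ.image (fun u => (c u, N u))) ⊆ codes := by
    intro x hx
    simp only [Finset.mem_image, Finset.mem_univ, true_and] at hx
    obtain ⟨u, rfl⟩ := hx
    exact hmem u
  have h4 := Finset.card_le_card h3
  rw [Finset.card_image_of_injective _ hinj, codes_card] at h4
  simp at h4

lemma isNL_comp {V κ κ' : Type} {G : SimpleGraph V} {c : V → κ} (h : IsNL G c) (f : κ → κ')
    (hf : Function.Injective f) : IsNL G (f ∘ c) := by
  refine ⟨fun u v huv he => h.1 u v huv (hf he), fun u v huv hc he => ?_⟩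
  apply h.2 u v huv (hf hc)
  ext i
  have h1 : (f i ∈ colNbhd G (f ∘ c) u) = (f i ∈ colNbhd G (f ∘ c) v) := by rw [he]
  have h2 : ∀ x, f i ∈ colNbhd G (f ∘ c) x ↔ i ∈ colNbhd G c x := by
    intro x
    constructor
    · rintro ⟨w, hw, hi⟩
      exact ⟨w, hw, hf hi⟩
    · rintro ⟨w, hw, hi⟩
      exact ⟨w, hw, congrArg f hi⟩
  rw [← h2, ← h2, h1]

/-- There are `d` (namely `24`) and a finite connected graph `G` of diameter `d` with
`χ_NL(G) < χ_NL(P_{d+1})`. -/
theorem result :
    ∃ (d : ℕ) (V : Type) (_ : Fintype V) (G : SimpleGraph V),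
      G.Connected ∧ G.diam = d ∧ chiNL G < chiNL (SimpleGraph.pathGraph (d + 1)) := by
  refine ⟨24, Fin 26, inferInstance, G, ?_, ?_, ?_⟩
  · apply SimpleGraph.connected_of_ediam_ne_top
    rw [ediam_eq]
    exact ENat.coe_ne_top _
  · unfold SimpleGraph.diam
    rw [ediam_eq]; rfl
  · have h1 : chiNL G ≤ 4 := Nat.sInf_le ⟨col, col_isNL⟩
    refine lt_of_le_of_lt h1 ?_
    by_contra hcon
    rw [not_lt] at hcon
    have hne : {k | ∃ c : Fin 25 → Fin k, IsNL (SimpleGraph.pathGraph 25) c}.Nonempty :=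
      ⟨25, id, fun u v h => h.ne, fun u v huv h => absurd h huv⟩
    obtain ⟨c, hc⟩ := Nat.sInf_mem hne
    exact path_bound _ (isNL_comp hc (Fin.castLE hcon) (Fin.castLE_injective hcon))

end Pool.Agent.Results.MP_fdbc88_co.DiameterTwentyFour
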